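import Pool.Agent.H68.SM.D

set_option autoImplicit false

namespace Pool.Agent.Results.MP_ac0662_al.AllLargeOrders

/-- For every prime `p` and every finite abelian `p`-group `A` there is a `k0` such that for
every `k ≥ k0` there is a nonabelian group `G` of order `p ^ k` with Schur multiplier
`H_2(G, ℤ) ≃ A`; moreover `G` is generated by two elements and has an abelian normal subgroup
with cyclic quotient. -/
theorem result (p : ℕ) (hp : p.Prime) (A : Type) [AddCommGroup A] [Finite A]
    (hA : ∀ a : A, ∃ n : ℕ, p ^ n • a = 0) :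
    ∃ k0 : ℕ, ∀ k : ℕ, k0 ≤ k → ∃ (G : Type) (_ : Group G),
      Nat.card G = p ^ k ∧
      (∃ x y : G, x * y ≠ y * x) ∧
      (∃ a b : G, Subgroup.closure {a, b} = ⊤) ∧
      (∃ (B : Subgroup G) (_ : B.Normal),
        (∀ u ∈ B, ∀ v ∈ B, u * v = v * u) ∧ IsCyclic (G ⧸ B)) ∧
      Nonempty (A ≃+ (groupHomology.H2 (Rep.trivial ℤ G ℤ))) :=
  Pool.Agent.H68.SM.main p hp A hA

end Pool.Agent.Results.MP_ac0662_al.AllLargeOrders
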